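import Mathlib

namespace Pool.Agent.MP_c357a0_lc

/-- The arithmetical hierarchy: level 0 is the computable predicates, and a predicate is
Sigma (n+1) when it is the projection of the negation of a Sigma n predicate. -/
inductive IsSigma : ℕ → (ℕ → Prop) → Prop
  | zero (p : ℕ → Prop) : ComputablePred p → IsSigma 0 p
  | succ (n : ℕ) (p q : ℕ → Prop) :
      IsSigma n q → (∀ x, p x ↔ ∃ y, ¬ q (Nat.pair x y)) → IsSigma (n + 1) p

/-- `H` is homogeneous for the partition `C` of exponent `n`; an `n`-element set is coded by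
its increasing enumeration. -/
def Homogeneous (n : ℕ) (C : List ℕ → Prop) (H : Set ℕ) : Prop :=
  (∀ s : Finset ℕ, s.card = n → (s : Set ℕ) ⊆ H → C (s.sort (· ≤ ·))) ∨
  (∀ s : Finset ℕ, s.card = n → (s : Set ℕ) ⊆ H → ¬ C (s.sort (· ≤ ·)))

/-- `H` is homogeneous after removing a finite set. -/
def AlmostHomogeneous (n : ℕ) (C : List ℕ → Prop) (H : Set ℕ) : Prop :=
  ∃ F : Set ℕ, F.Finite ∧ Homogeneous n C (H \ F)

/-- `A` is `n`-cohesive: infinite and almost homogeneous for every c.e. partition. -/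
def Cohesive (n : ℕ) (A : Set ℕ) : Prop :=
  A.Infinite ∧ ∀ C : List ℕ → Prop, REPred C → AlmostHomogeneous n C A

/-- `A` is `n`-r-cohesive: infinite and almost homogeneous for every computable partition. -/
def RCohesive (n : ℕ) (A : Set ℕ) : Prop :=
  A.Infinite ∧ ∀ C : List ℕ → Prop, ComputablePred C → AlmostHomogeneous n C A

/-- Level `h` of the difference hierarchy over Sigma n: `x` is in `A` exactly when an odd number
of the first `h x` sets of a uniformly Sigma n sequence contain `x`. -/
def DiffLevel (n : ℕ) (h : ℕ → ℕ) (A : Set ℕ) : Prop :=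
  ∃ S : ℕ → Prop, IsSigma n S ∧ ∀ x, x ∈ A ↔ Odd {i | i < h x ∧ S (Nat.pair x i)}.ncard

end Pool.Agent.MP_c357a0_lc
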